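import Mathlib

namespace Pool.Agent.Results.MP_c7e24e_co.Disconnected

open Finset

section defs

variable {V : Type} [Fintype V] [DecidableEq V]

/-- A graph is biconnected if it is connected, has at least three vertices and no cut vertex. -/
def Biconnected (G : SimpleGraph V) : Prop :=
  G.Connected ∧ 3 ≤ Fintype.card V ∧ ∀ v : V, (G.induce {w : V | w ≠ v}).Connected

/-- A graph is `t`-connected if it has more than `t` vertices and stays connected when any set
of fewer than `t` vertices is removed. -/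
def VertexConnected (t : ℕ) (G : SimpleGraph V) : Prop :=
  t < Fintype.card V ∧ ∀ S : Finset V, S.card < t → (G.induce {w : V | w ∉ S}).Connected

/-- A partition of the vertex set into `k` connected districts, balanced with slack `s`. -/
def IsBCP (G : SimpleGraph V) (k : ℕ) (s : ℝ) (P : Finpartition (univ : Finset V)) : Prop :=
  P.parts.card = k ∧ ∀ U ∈ P.parts, (G.induce (U : Set V)).Connected ∧
    |(U.card : ℝ) - (Fintype.card V : ℝ) / (k : ℝ)| ≤ s

/-- Two distinct partitions differ by a recombination move. -/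
def Recomb (P Q : Finpartition (univ : Finset V)) : Prop :=
  P ≠ Q ∧ ∃ U₁ ∈ P.parts, ∃ U₂ ∈ P.parts, ∃ W₁ ∈ Q.parts, ∃ W₂ ∈ Q.parts,
    U₁ ≠ U₂ ∧ W₁ ≠ W₂ ∧ U₁ ∪ U₂ = W₁ ∪ W₂ ∧ P.parts \ {U₁, U₂} = Q.parts \ {W₁, W₂}

lemma Recomb.symm {P Q : Finpartition (univ : Finset V)} (h : Recomb P Q) : Recomb Q P := by
  obtain ⟨hne, U₁, hU₁, U₂, hU₂, W₁, hW₁, W₂, hW₂, h1, h2, h3, h4⟩ := h
  exact ⟨hne.symm, W₁, hW₁, W₂, hW₂, U₁, hU₁, U₂, hU₂, h2, h1, h3.symm, h4.symm⟩

/-- The configuration space. -/
def configSpace (G : SimpleGraph V) (k : ℕ) (s : ℝ) :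
    SimpleGraph {P : Finpartition (univ : Finset V) // IsBCP G k s P} where
  Adj P Q := Recomb P.1 Q.1
  symm := ⟨fun _ _ h => Recomb.symm h⟩
  loopless := ⟨fun _ h => h.1 rfl⟩

end defs

/-- Hubs: three inner hubs and `T` outer hubs. -/
abbrev Hub (T : ℕ) : Type := Fin 3 ⊕ Fin T

/-- Leaves: three bundles of `q` inner leaves, `T` bundles of `q` outer leaves, `N` more outer
leaves. -/
abbrev Leaf (q T N : ℕ) : Type := (Fin 3 × Fin q) ⊕ ((Fin T × Fin q) ⊕ Fin N)

/-- The vertices. -/
abbrev Vx (q T N : ℕ) : Type := Hub T ⊕ Leaf q T N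

/-- Which hub is joined to which leaf. -/
def link (q T N : ℕ) : Hub T → Leaf q T N → Prop
  | Sum.inr _, _ => True
  | Sum.inl i, Sum.inl x => x.1 = i ∨ x.1 + 1 = i
  | Sum.inl _, Sum.inr _ => False

/-- The bipartite graph. -/
def gr (q T N : ℕ) : SimpleGraph (Vx q T N) where
  Adj u v := match u, v with
    | Sum.inl h, Sum.inr l => link q T N h l
    | Sum.inr l, Sum.inl h => link q T N h l
    | _, _ => False
  symm := ⟨by rintro (h | l) (h' | l') hh <;> exact hh⟩
  loopless := ⟨by rintro (h | l) hh <;> exact hh⟩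

lemma gr_adj_hl {q T N : ℕ} {h : Hub T} {l : Leaf q T N} (hl : link q T N h l) :
    (gr q T N).Adj (Sum.inl h) (Sum.inr l) := hl

lemma gr_adj_leaf {q T N : ℕ} {l : Leaf q T N} {v : Vx q T N}
    (h : (gr q T N).Adj (Sum.inr l) v) : ∃ g : Hub T, v = Sum.inl g ∧ link q T N g l := by
  rcases v with g | l'
  · exact ⟨g, rfl, h⟩
  · exact absurd h (by intro h; exact h)

lemma card_Vx (q T N : ℕ) : Fintype.card (Vx q T N) = (3 + T) * (q + 1) + N := by
  simp only [Fintype.card_sum, Fintype.card_fin, Fintype.card_prod]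
  ring

/-- a set with a centre is connected -/
lemma star_connected {V : Type} (G : SimpleGraph V) (D : Set V) (c : V) (hc : c ∈ D)
    (h : ∀ v ∈ D, v ≠ c → G.Adj c v) : (G.induce D).Connected := by
  rw [SimpleGraph.connected_iff]
  refine ⟨?_, ⟨⟨c, hc⟩⟩⟩
  have hr : ∀ v : D, (G.induce D).Reachable ⟨c, hc⟩ v := by
    intro v
    by_cases hv : v.1 = c
    · have : (⟨c, hc⟩ : D) = v := Subtype.ext hv.symm
      rw [this]
    · apply SimpleGraph.Adj.reachable
      show G.Adj c v.1
      exact h v.1 v.2 hv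
  intro u v
  exact (hr u).symm.trans (hr v)

/-- In a connected induced subgraph with two vertices each vertex has a neighbour. -/
lemma exists_nbr {V : Type} (G : SimpleGraph V) (D : Set V) (hD : (G.induce D).Connected)
    (u v : V) (hu : u ∈ D) (hv : v ∈ D) (huv : u ≠ v) : ∃ w ∈ D, G.Adj u w := by
  obtain ⟨p⟩ := hD.preconnected ⟨u, hu⟩ ⟨v, hv⟩
  cases p with
  | nil => exact absurd rfl huv
  | @cons _ w _ h _ => exact ⟨w.1, w.2, h⟩

lemma gr_connected (q T N : ℕ) (S : Finset (Vx q T N)) (hq : S.card < q) (hT : S.card < T) :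
    ((gr q T N).induce {w : Vx q T N | w ∉ S}).Connected := by
  classical
  -- a surviving outer hub
  obtain ⟨j, hj⟩ : ∃ j : Fin T, (Sum.inl (Sum.inr j) : Vx q T N) ∉ S := by
    by_contra hcon
    push Not at hcon
    have : (univ : Finset (Fin T)).card ≤ S.card :=
      Finset.card_le_card_of_injOn (fun j => (Sum.inl (Sum.inr j) : Vx q T N))
        (fun j _ => hcon j) (by intro a _ b _ h; simpa using h)
    simp at this
    omega
  -- a surviving inner leaf in each bundle
  have hleaf : ∀ i : Fin 3, ∃ l : Fin q, (Sum.inr (Sum.inl (i, l)) : Vx q T N) ∉ S := by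
    intro i
    by_contra hcon
    push Not at hcon
    have : (univ : Finset (Fin q)).card ≤ S.card :=
      Finset.card_le_card_of_injOn (fun l => (Sum.inr (Sum.inl (i, l)) : Vx q T N))
        (fun j _ => hcon j) (by intro a _ b _ h; simpa using h)
    simp at this
    omega
  have hr1 : ∀ l : Leaf q T N, ∀ hl : (Sum.inr l : Vx q T N) ∉ S,
      ((gr q T N).induce {w : Vx q T N | w ∉ S}).Reachable ⟨Sum.inl (Sum.inr j), hj⟩
        ⟨Sum.inr l, hl⟩ := by
    intro l hl
    apply SimpleGraph.Adj.reachable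
    show link q T N (Sum.inr j) l
    trivial
  rw [SimpleGraph.connected_iff]
  refine ⟨?_, ⟨⟨_, hj⟩⟩⟩
  have hr : ∀ v : {w : Vx q T N | w ∉ S}, ((gr q T N).induce {w : Vx q T N | w ∉ S}).Reachable
      ⟨Sum.inl (Sum.inr j), hj⟩ v := by
    rintro ⟨v, hv⟩
    rcases v with (i | j') | l
    · obtain ⟨l, hl⟩ := hleaf i
      refine (hr1 _ hl).trans ?_
      apply SimpleGraph.Adj.reachable
      show link q T N (Sum.inl i) (Sum.inl (i, l))
      exact Or.inl rfl
    · obtain ⟨l, hl⟩ := hleaf 0
      refine (hr1 _ hl).trans ?_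
      apply SimpleGraph.Adj.reachable
      show link q T N (Sum.inr j') (Sum.inl (0, l))
      trivial
    · exact hr1 l hv
  intro u v
  exact (hr u).symm.trans (hr v)

section rigid

variable {q T N : ℕ} (P : Finpartition (univ : Finset (Vx q T N)))

/-- The hub parts. -/
def hp (h : Hub T) : Finset (Vx q T N) := P.part (Sum.inl h)

lemma hp_mem (h : Hub T) : hp P h ∈ P.parts := by
  unfold hp
  rw [P.part_mem]
  simp

lemma mem_hp (h : Hub T) : (Sum.inl h : Vx q T N) ∈ hp P h := by
  unfold hp
  rw [P.mem_part_self]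
  simp

lemma hp_eq {U : Finset (Vx q T N)} (hU : U ∈ P.parts) {h : Hub T}
    (hh : (Sum.inl h : Vx q T N) ∈ U) : hp P h = U :=
  P.part_eq_of_mem hU hh

/-- The conditions on the partition used below. -/
structure Good (q T N : ℕ) (P : Finpartition (univ : Finset (Vx q T N))) : Prop where
  card_parts : P.parts.card = 3 + T + N
  conn : ∀ U ∈ P.parts, ((gr q T N).induce (U : Set (Vx q T N))).Connected
  size : ∀ U ∈ P.parts, U.card ≤ q + 1

variable {P}

lemma no_hub (hP : Good q T N P) {U : Finset (Vx q T N)} (hU : U ∈ P.parts)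
    (h : ∀ g : Hub T, (Sum.inl g : Vx q T N) ∉ U) : U.card ≤ 1 := by
  rw [Finset.card_le_one]
  intro u hu v hv
  by_contra huv
  obtain ⟨w, hw, hadj⟩ := exists_nbr _ _ (hP.conn U hU) u v hu hv huv
  rcases u with g | l
  · exact h g hu
  · obtain ⟨g, rfl, -⟩ := gr_adj_leaf hadj
    exact h g hw

lemma rigid_aux (hq : 1 ≤ q) (hP : Good q T N P) :
    (univ.image (hp P)).card = 3 + T ∧ ∀ h : Hub T, (hp P h).card = q + 1 := by
  classical
  set H : Finset (Finset (Vx q T N)) := univ.image (hp P) with hH
  have hHsub : H ⊆ P.parts := by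
    intro U hU
    rw [hH, Finset.mem_image] at hU
    obtain ⟨g, -, rfl⟩ := hU
    exact hp_mem P g
  have hHcard : H.card ≤ 3 + T := by
    refine Finset.card_image_le.trans ?_
    simp
  have hsum := P.sum_card_parts
  rw [Finset.card_univ, card_Vx] at hsum
  rw [← Finset.sum_sdiff hHsub] at hsum
  have h1 : ∑ U ∈ P.parts \ H, U.card ≤ (P.parts \ H).card * 1 := by
    apply Finset.sum_le_card_nsmul
    intro U hU
    rw [Finset.mem_sdiff] at hU
    apply no_hub hP hU.1
    intro g hg
    apply hU.2
    rw [hH, Finset.mem_image]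
    exact ⟨g, Finset.mem_univ _, hp_eq P hU.1 hg⟩
  have h2 : ∑ U ∈ H, U.card ≤ H.card * (q + 1) := by
    apply Finset.sum_le_card_nsmul
    intro U hU
    exact hP.size U (hHsub hU)
  have h3 : (P.parts \ H).card + H.card = 3 + T + N := by
    rw [← hP.card_parts]
    exact Finset.card_sdiff_add_card_eq_card hHsub
  have h4 : H.card = 3 + T := by
    apply le_antisymm hHcard
    have h5 : (3 + T) * (q + 1) + N ≤ (P.parts \ H).card * 1 + H.card * (q + 1) := by omega
    have h6 : (3 + T) * q ≤ H.card * q := by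
      have e1 : (3 + T) * (q + 1) = (3 + T) * q + (3 + T) := by ring
      have e2 : H.card * (q + 1) = H.card * q + H.card := by ring
      omega
    exact Nat.le_of_mul_le_mul_right h6 hq
  refine ⟨h4, ?_⟩
  have h7 : (P.parts \ H).card = N := by omega
  have h8 : ∑ U ∈ H, U.card = ∑ U ∈ H, (q + 1) := by
    rw [Finset.sum_const, smul_eq_mul]
    apply le_antisymm h2
    rw [h4]
    omega
  have h9 := (Finset.sum_eq_sum_iff_of_le (fun U hU => hP.size U (hHsub hU))).mp h8
  intro g
  exact h9 _ (Finset.mem_image_of_mem _ (Finset.mem_univ _))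

lemma hp_inj (hq : 1 ≤ q) (hP : Good q T N P) : Function.Injective (hp P) := by
  have h1 := (rigid_aux hq hP).1
  have h2 : (univ.image (hp P)).card = (univ : Finset (Hub T)).card := by
    rw [h1]; simp
  have h3 := Finset.card_image_iff.mp h2
  intro a b hab
  exact h3 (by simp) (by simp) hab

lemma leaf_link (hq : 1 ≤ q) (hP : Good q T N P) (g : Hub T) (l : Leaf q T N)
    (hl : (Sum.inr l : Vx q T N) ∈ hp P g) : link q T N g l := by
  obtain ⟨w, hw, hadj⟩ := exists_nbr _ _ (hP.conn _ (hp_mem P g)) (Sum.inr l) (Sum.inl g) hl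
    (mem_hp P g) (by simp)
  obtain ⟨g', rfl, hlink⟩ := gr_adj_leaf hadj
  have : hp P g' = hp P g := hp_eq P (hp_mem P g) hw
  have := hp_inj hq hP this
  rw [← this]
  exact hlink

/-- The bundle of inner leaves with index `i`. -/
def bundle (q T N : ℕ) (i : Fin 3) : Finset (Vx q T N) :=
  (univ : Finset (Fin q)).image (fun l => Sum.inr (Sum.inl (i, l)))

lemma card_bundle (i : Fin 3) : (bundle q T N i).card = q := by
  unfold bundle
  rw [Finset.card_image_of_injective]
  · simp
  · intro a b h
    simpa using h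

/-- The invariant. -/
def inv (P : Finpartition (univ : Finset (Vx q T N))) (i : Fin 3) : ℕ :=
  (hp P (Sum.inl i) ∩ bundle q T N i).card

lemma hub_split (hq : 1 ≤ q) (hP : Good q T N P) (i : Fin 3) :
    (hp P (Sum.inl i) ∩ bundle q T N i).card + (hp P (Sum.inl i) ∩ bundle q T N (i + 2)).card
      = q := by
  classical
  have h1 := (rigid_aux hq hP).2 (Sum.inl i)
  have h2 : hp P (Sum.inl i) = insert (Sum.inl (Sum.inl i))
      ((hp P (Sum.inl i) ∩ bundle q T N i) ∪ (hp P (Sum.inl i) ∩ bundle q T N (i + 2))) := by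
    ext v
    simp only [Finset.mem_insert, Finset.mem_union, Finset.mem_inter]
    constructor
    · intro hv
      rcases v with g | l
      · left
        have : hp P g = hp P (Sum.inl i) := hp_eq P (hp_mem P _) hv
        rw [hp_inj hq hP this]
      · right
        have hl := leaf_link hq hP _ _ hv
        rcases l with ⟨i', x⟩ | l
        · have hl' : i' = i ∨ i' + 1 = i := hl
          rcases hl' with rfl | hl'
          · left
            refine ⟨hv, ?_⟩
            unfold bundle
            simp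
          · right
            refine ⟨hv, ?_⟩
            have : i + 2 = i' := by
              rw [← hl']
              fin_cases i' <;> rfl
            rw [this]
            unfold bundle
            simp
        · exact absurd hl (by intro h; exact h)
    · rintro (rfl | h | h)
      · exact mem_hp P _
      · exact h.1
      · exact h.1
  have h3 : (Sum.inl (Sum.inl i) : Vx q T N) ∉
      ((hp P (Sum.inl i) ∩ bundle q T N i) ∪ (hp P (Sum.inl i) ∩ bundle q T N (i + 2))) := by
    unfold bundle
    simp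
  have h4 : Disjoint (hp P (Sum.inl i) ∩ bundle q T N i)
      (hp P (Sum.inl i) ∩ bundle q T N (i + 2)) := by
    rw [Finset.disjoint_left]
    intro v hv hv'
    rw [Finset.mem_inter] at hv hv'
    unfold bundle at hv hv'
    simp only [Finset.mem_image, Finset.mem_univ, true_and] at hv hv'
    obtain ⟨-, l, rfl⟩ := hv
    obtain ⟨-, l', h⟩ := hv'
    simp only [Sum.inr.injEq, Sum.inl.injEq, Prod.mk.injEq] at h
    have := h.1
    fin_cases i <;> simp at this
  rw [h2, Finset.card_insert_of_notMem h3, Finset.card_union_of_disjoint h4] at h1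
  omega

lemma bundle_split (hq : 1 ≤ q) (hP : Good q T N P) (i : Fin 3) :
    (hp P (Sum.inl i) ∩ bundle q T N i).card +
      (hp P (Sum.inl (i + 1)) ∩ bundle q T N i).card ≤ q := by
  classical
  have h4 : Disjoint (hp P (Sum.inl i) ∩ bundle q T N i)
      (hp P (Sum.inl (i + 1)) ∩ bundle q T N i) := by
    rw [Finset.disjoint_left]
    intro v hv hv'
    rw [Finset.mem_inter] at hv hv'
    have := P.eq_of_mem_parts (hp_mem P _) (hp_mem P _) hv.1 hv'.1
    have := hp_inj hq hP this
    simp only [Sum.inl.injEq] at this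
    fin_cases i <;> simp at this
  rw [← Finset.card_union_of_disjoint h4]
  refine le_trans (Finset.card_le_card ?_) (card_bundle (q := q) (T := T) (N := N) i).le
  intro v hv
  rw [Finset.mem_union, Finset.mem_inter, Finset.mem_inter] at hv
  rcases hv with h | h <;> exact h.2

lemma inv_const (hq : 1 ≤ q) (hP : Good q T N P) (i : Fin 3) : inv P i = inv P 0 := by
  have a0 := hub_split hq hP 0
  have a1 := hub_split hq hP 1
  have a2 := hub_split hq hP 2
  have b0 := bundle_split hq hP 0
  have b1 := bundle_split hq hP 1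
  have b2 := bundle_split hq hP 2
  have e1 : (0 : Fin 3) + 2 = 2 := rfl
  have e2 : (1 : Fin 3) + 2 = 0 := rfl
  have e3 : (2 : Fin 3) + 2 = 1 := rfl
  have e4 : (0 : Fin 3) + 1 = 1 := rfl
  have e5 : (1 : Fin 3) + 1 = 2 := rfl
  have e6 : (2 : Fin 3) + 1 = 0 := rfl
  rw [e1] at a0
  rw [e2] at a1
  rw [e3] at a2
  rw [e4] at b0
  rw [e5] at b1
  rw [e6] at b2
  unfold inv
  fin_cases i
  · rfl
  · show (hp P (Sum.inl 1) ∩ bundle q T N 1).card = (hp P (Sum.inl 0) ∩ bundle q T N 0).card
    omega
  · show (hp P (Sum.inl 2) ∩ bundle q T N 2).card = (hp P (Sum.inl 0) ∩ bundle q T N 0).card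
    omega

lemma inv_recomb (hq : 1 ≤ q) {Q : Finpartition (univ : Finset (Vx q T N))}
    (hP : Good q T N P) (hQ : Good q T N Q) (h : Recomb P Q) : inv P 0 = inv Q 0 := by
  classical
  obtain ⟨-, U₁, hU₁, U₂, hU₂, W₁, hW₁, W₂, hW₂, h1, h2, h3, h4⟩ := h
  -- some inner hub part is not touched
  obtain ⟨i, hi⟩ : ∃ i : Fin 3, hp P (Sum.inl i) ∉ ({U₁, U₂} : Finset (Finset (Vx q T N))) := by
    by_contra hcon
    push Not at hcon
    have : (univ : Finset (Fin 3)).card ≤ ({U₁, U₂} : Finset (Finset (Vx q T N))).card :=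
      Finset.card_le_card_of_injOn (fun i => hp P (Sum.inl i)) (fun i _ => hcon i) (by
        intro a _ b _ hab
        have := hp_inj hq hP hab
        simpa using this)
    have h5 : ({U₁, U₂} : Finset (Finset (Vx q T N))).card ≤ 2 := Finset.card_le_two
    simp at this
    omega
  have h5 : hp P (Sum.inl i) ∈ P.parts \ {U₁, U₂} := by
    rw [Finset.mem_sdiff]
    exact ⟨hp_mem P _, hi⟩
  rw [h4, Finset.mem_sdiff] at h5
  have h6 : hp Q (Sum.inl i) = hp P (Sum.inl i) := hp_eq Q h5.1 (mem_hp P _)
  have h7 : inv P i = inv Q i := by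
    unfold inv
    rw [h6]
  rw [inv_const hq hP, inv_const hq hQ] at h7
  exact h7

end rigid

section labels

variable {V L : Type} [Fintype V] [DecidableEq V] [Fintype L] [DecidableEq L]

/-- The partition of the vertex set into the fibres of a surjection. -/
def fibres (g : V → L) (hg : Function.Surjective g) : Finpartition (univ : Finset V) :=
  Finpartition.ofExistsUnique (univ.image (fun c : L => univ.filter (fun v => g v = c)))
    (by intro p _; exact Finset.subset_univ p)
    (by
      intro v _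
      refine ⟨univ.filter (fun w => g w = g v), ⟨?_, by simp⟩, ?_⟩
      · exact Finset.mem_image_of_mem _ (Finset.mem_univ _)
      · rintro U ⟨hU, hv⟩
        simp only [Finset.mem_image, Finset.mem_univ, true_and] at hU
        obtain ⟨c, rfl⟩ := hU
        simp only [Finset.mem_filter, Finset.mem_univ, true_and] at hv
        rw [hv])
    (by
      intro h
      simp only [Finset.mem_image, Finset.mem_univ, true_and] at h
      obtain ⟨c, hc⟩ := h
      obtain ⟨v, hv⟩ := hg c
      have : v ∈ (∅ : Finset V) := by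
        rw [← hc]
        simpa using hv
      simp at this)

lemma fibres_parts (g : V → L) (hg : Function.Surjective g) :
    (fibres g hg).parts = univ.image (fun c : L => univ.filter (fun v => g v = c)) := rfl

lemma fibres_card (g : V → L) (hg : Function.Surjective g) :
    (fibres g hg).parts.card = Fintype.card L := by
  rw [fibres_parts, Finset.card_image_of_injective, Finset.card_univ]
  intro c d hcd
  obtain ⟨v, hv⟩ := hg c
  have : v ∈ univ.filter (fun v => g v = d) := by
    have h2 : v ∈ univ.filter (fun v => g v = c) := by simpa using hv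
    have hcd' : univ.filter (fun v => g v = c) = univ.filter (fun v => g v = d) := hcd
    rw [← hcd']
    exact h2
  simp only [Finset.mem_filter, Finset.mem_univ, true_and] at this
  rw [← hv, ← this]

end labels

/-- The labels. -/
abbrev Lab (T N : ℕ) : Type := Hub T ⊕ Fin N

/-- The two labellings; `e = 0` or `e = 1` rotates the inner bundles. -/
def lab (q T N : ℕ) (e : Fin 3) : Vx q T N → Lab T N
  | Sum.inl g => Sum.inl g
  | Sum.inr (Sum.inl x) => Sum.inl (Sum.inl (x.1 + e))
  | Sum.inr (Sum.inr (Sum.inl y)) => Sum.inl (Sum.inr y.1)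
  | Sum.inr (Sum.inr (Sum.inr z)) => Sum.inr z

lemma lab_surj (q T N : ℕ) (e : Fin 3) : Function.Surjective (lab q T N e) := by
  rintro (g | z)
  · exact ⟨Sum.inl g, rfl⟩
  · exact ⟨Sum.inr (Sum.inr (Sum.inr z)), rfl⟩

/-- A position inside a fibre. -/
def pos (q T N : ℕ) : Vx q T N → Option (Fin q)
  | Sum.inl _ => none
  | Sum.inr (Sum.inl x) => some x.2
  | Sum.inr (Sum.inr (Sum.inl y)) => some y.2
  | Sum.inr (Sum.inr (Sum.inr _)) => none

lemma pos_inj (q T N : ℕ) (e : Fin 3) (u v : Vx q T N) (h1 : lab q T N e u = lab q T N e v)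
    (h2 : pos q T N u = pos q T N v) : u = v := by
  rcases u with g | ⟨i, x⟩ | ⟨j, y⟩ | z <;> rcases v with g' | ⟨i', x'⟩ | ⟨j', y'⟩ | z' <;>
    simp [lab, pos] at h1 h2 ⊢ <;> first | exact h1 | exact ⟨h1, h2⟩

lemma lab_good (q T N : ℕ) (e : Fin 3) (he : e = 0 ∨ e = 1) :
    Good q T N (fibres (lab q T N e) (lab_surj q T N e)) := by
  refine ⟨?_, ?_, ?_⟩
  · rw [fibres_card]
    simp
  · intro U hU
    rw [fibres_parts] at hU
    simp only [Finset.mem_image, Finset.mem_univ, true_and] at hU
    obtain ⟨c, rfl⟩ := hU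
    rcases c with g | z
    · apply star_connected _ _ (Sum.inl g)
      · rw [Finset.mem_coe, Finset.mem_filter]
        exact ⟨Finset.mem_univ _, rfl⟩
      · intro v hv hvc
        simp only [Finset.coe_filter, Finset.mem_univ, true_and, Set.mem_ofPred_eq] at hv
        rcases v with g' | ⟨i, x⟩ | ⟨j, y⟩ | z
        · simp only [lab, Sum.inl.injEq] at hv
          exact absurd (by rw [hv]) hvc
        · simp only [lab, Sum.inl.injEq] at hv
          subst hv
          show i = i + e ∨ i + 1 = i + e
          rcases he with rfl | rfl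
          · left; simp
          · right; rfl
        · simp only [lab, Sum.inl.injEq] at hv
          subst hv
          show link q T N (Sum.inr j) (Sum.inr (Sum.inl (j, y)))
          trivial
        · simp [lab] at hv
    · apply star_connected _ _ (Sum.inr (Sum.inr (Sum.inr z)))
      · rw [Finset.mem_coe, Finset.mem_filter]
        exact ⟨Finset.mem_univ _, rfl⟩
      · intro v hv hvc
        simp only [Finset.coe_filter, Finset.mem_univ, true_and, Set.mem_ofPred_eq] at hv
        rcases v with g' | ⟨i, x⟩ | ⟨j, y⟩ | z'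
        · simp [lab] at hv
        · simp [lab] at hv
        · simp [lab] at hv
        · simp only [lab, Sum.inr.injEq] at hv
          exact absurd (by rw [hv]) hvc
  · intro U hU
    rw [fibres_parts] at hU
    simp only [Finset.mem_image, Finset.mem_univ, true_and] at hU
    obtain ⟨c, rfl⟩ := hU
    have h1 : (univ.filter (fun v => lab q T N e v = c)).card ≤
        (univ : Finset (Option (Fin q))).card := by
      apply Finset.card_le_card_of_injOn (pos q T N) (fun _ _ => Finset.mem_univ _)
      intro u hu v hv huv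
      simp only [Finset.coe_filter, Finset.mem_univ, true_and, Set.mem_ofPred_eq] at hu hv
      exact pos_inj q T N e u v (hu.trans hv.symm) huv
    simpa using h1

lemma hp_lab (q T N : ℕ) (e : Fin 3) (g : Hub T) :
    hp (fibres (lab q T N e) (lab_surj q T N e)) g =
      univ.filter (fun v => lab q T N e v = Sum.inl g) := by
  apply hp_eq
  · rw [fibres_parts]
    exact Finset.mem_image_of_mem _ (Finset.mem_univ _)
  · rw [Finset.mem_filter]
    exact ⟨Finset.mem_univ _, rfl⟩

lemma inv_lab_zero (q T N : ℕ) : inv (fibres (lab q T N 0) (lab_surj q T N 0)) 0 = q := by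
  unfold inv
  rw [hp_lab, Finset.inter_eq_right.mpr, card_bundle]
  intro v hv
  unfold bundle at hv
  simp only [Finset.mem_image, Finset.mem_univ, true_and] at hv
  obtain ⟨l, rfl⟩ := hv
  rw [Finset.mem_filter]
  exact ⟨Finset.mem_univ _, rfl⟩

lemma inv_lab_one (q T N : ℕ) : inv (fibres (lab q T N 1) (lab_surj q T N 1)) 0 = 0 := by
  unfold inv
  rw [hp_lab, Finset.card_eq_zero, Finset.eq_empty_iff_forall_notMem]
  intro v hv
  rw [Finset.mem_inter] at hv
  unfold bundle at hv
  simp only [Finset.mem_image, Finset.mem_univ, true_and] at hv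
  obtain ⟨hv, l, rfl⟩ := hv
  rw [Finset.mem_filter] at hv
  have h1 : (Sum.inl (Sum.inl ((0 : Fin 3) + 1)) : Lab T N) = Sum.inl (Sum.inl 0) := hv.2
  simp at h1

/-- The main combinatorial statement. -/
lemma main (q T N k : ℕ) (s : ℝ) (hq : 1 ≤ q) (hk : k = 3 + T + N)
    (hup : ∀ m : ℕ, |(m : ℝ) - (Fintype.card (Vx q T N) : ℝ) / (k : ℝ)| ≤ s → m ≤ q + 1)
    (hlow : ∀ m : ℕ, 1 ≤ m → m ≤ q + 1 →
      |(m : ℝ) - (Fintype.card (Vx q T N) : ℝ) / (k : ℝ)| ≤ s) :
    ¬ (configSpace (gr q T N) k s).Preconnected := by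
  have hgood : ∀ P : {P : Finpartition (univ : Finset (Vx q T N)) // IsBCP (gr q T N) k s P},
      Good q T N P.1 := by
    rintro ⟨P, h1, h2⟩
    exact ⟨h1.trans hk, fun U hU => (h2 U hU).1, fun U hU => hup _ (h2 U hU).2⟩
  have hbcp : ∀ P : Finpartition (univ : Finset (Vx q T N)), Good q T N P →
      IsBCP (gr q T N) k s P := by
    intro P hP
    refine ⟨hP.card_parts.trans hk.symm, fun U hU => ⟨hP.conn U hU, ?_⟩⟩
    apply hlow
    · exact Finset.card_pos.mpr (P.nonempty_of_mem_parts hU)
    · exact hP.size U hU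
  intro hpre
  have hstep : ∀ P Q, (configSpace (gr q T N) k s).Reachable P Q → inv P.1 0 = inv Q.1 0 := by
    rintro P Q ⟨w⟩
    induction w with
    | nil => rfl
    | cons h _ ih => exact (inv_recomb hq (hgood _) (hgood _) h).trans ih
  have h := hstep ⟨_, hbcp _ (lab_good q T N 0 (Or.inl rfl))⟩
    ⟨_, hbcp _ (lab_good q T N 1 (Or.inr rfl))⟩ (hpre _ _)
  rw [inv_lab_zero, inv_lab_one] at h
  omega

/-- For every connectivity `t`, every factor `c` and every average district size `r ≥ 2` there
is a `t`-connected and biconnected graph with `n = r * k` vertices and a slack `s ≥ c * n / k`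
for which the configuration space is not connected. -/
theorem result (t c r : ℕ) (hr : 2 ≤ r) :
    ∃ (V : Type) (_ : Fintype V) (_ : DecidableEq V) (G : SimpleGraph V) (k : ℕ) (s : ℝ),
      Biconnected G ∧ VertexConnected t G ∧ 1 ≤ k ∧ Fintype.card V = r * k ∧
      (c : ℝ) * ((Fintype.card V : ℝ) / (k : ℝ)) ≤ s ∧
      ¬ (configSpace G k s).Preconnected := by
  obtain ⟨ρ, rfl⟩ : ∃ ρ, r = ρ + 1 := ⟨r - 1, by omega⟩
  have hρ : 1 ≤ ρ := by omega
  set d := 2 * c + t + 1 with hd
  set q := (d + 1) * ρ with hq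
  set T := t + 2 with hT
  set N := d * (3 + T) with hN
  have hqd : d + 1 ≤ q := by
    rw [hq]
    exact Nat.le_mul_of_pos_right _ hρ
  have hcard : Fintype.card (Vx q T N) = (ρ + 1) * (3 + T + N) := by
    rw [card_Vx, hN, hq]
    ring
  have hkpos : (0 : ℝ) < ((3 + T + N : ℕ) : ℝ) := by
    have : 0 < 3 + T + N := by omega
    exact_mod_cast this
  have hquot : (Fintype.card (Vx q T N) : ℝ) / ((3 + T + N : ℕ) : ℝ) = (ρ : ℝ) + 1 := by
    rw [hcard, div_eq_iff hkpos.ne']
    push_cast
    ring
  have hconn : ∀ S : Finset (Vx q T N), S.card < max t 2 →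
      ((gr q T N).induce {w : Vx q T N | w ∉ S}).Connected := by
    intro S hS
    apply gr_connected <;> omega
  have hbig : max t 2 < Fintype.card (Vx q T N) := by
    rw [card_Vx]
    have h1 : q + 1 ≤ (3 + T) * (q + 1) := Nat.le_mul_of_pos_left _ (by omega)
    omega
  refine ⟨Vx q T N, inferInstance, inferInstance, gr q T N, 3 + T + N, (d : ℝ) * ρ,
    ⟨?_, by omega, ?_⟩, ⟨by omega, ?_⟩, by omega, hcard, ?_, ?_⟩
  · have h1 := hconn ∅ (by simp)
    have h2 : {w : Vx q T N | w ∉ (∅ : Finset (Vx q T N))} = Set.univ := by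
      ext; simp
    rw [h2] at h1
    exact (SimpleGraph.induceUnivIso (gr q T N)).connected_iff.mp h1
  · intro v
    have h1 := hconn {v} (by simp)
    have h2 : {w : Vx q T N | w ∉ ({v} : Finset (Vx q T N))} = {w | w ≠ v} := by
      ext; simp
    rw [h2] at h1
    exact h1
  · intro S hS
    exact hconn S (by omega)
  · rw [hquot]
    have h1 : (c : ℝ) * ((ρ : ℝ) + 1) ≤ (2 * c : ℝ) * ρ := by
      have hρ' : (1 : ℝ) ≤ ρ := by exact_mod_cast hρ
      have hc : (0 : ℝ) ≤ c := Nat.cast_nonneg c
      nlinarith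
    refine h1.trans ?_
    apply mul_le_mul_of_nonneg_right _ (Nat.cast_nonneg ρ)
    rw [hd]
    push_cast
    have : (0 : ℝ) ≤ t := Nat.cast_nonneg t
    linarith
  · apply main q T N _ _ (by omega) rfl
    · intro m hm
      rw [hquot] at hm
      have h1 := (abs_le.mp hm).2
      have h2 : (m : ℝ) ≤ ((q + 1 : ℕ) : ℝ) := by
        rw [hq]
        push_cast
        linarith
      exact_mod_cast h2
    · intro m hm1 hm2
      rw [hquot, abs_le]
      have h1 : (1 : ℝ) ≤ m := by exact_mod_cast hm1
      have h2 : (m : ℝ) ≤ ((q + 1 : ℕ) : ℝ) := by exact_mod_cast hm2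
      rw [hq] at h2
      push_cast at h2
      have h3 : (ρ : ℝ) ≤ d * ρ := by
        have h4 : (1 : ℝ) ≤ d := by
          have : 1 ≤ d := by omega
          exact_mod_cast this
        nlinarith [(Nat.cast_nonneg ρ : (0 : ℝ) ≤ ρ)]
      constructor
      · linarith
      · linarith

end Pool.Agent.Results.MP_c7e24e_co.Disconnected
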